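import Pool.Agent.N928.FG.Stm
import Pool.Agent.Helper23.Haagerup

/-!
# Project FG (helper928), part RD: property RD in the frozen form (helper250)
-/

set_option autoImplicit false

namespace Pool.Agent.N250.FG.Rd

open Pool.Agent.N928.FG Pool.Agent.Helper125 Pool.Agent.Helper125.Gam
open Pool.Agent.Helper23.Haagerup

theorem exists_list (S : Finset Ga) (x : Ga) (hx : x ∈ Subgroup.closure (S : Set Ga)) :
    ∃ l : List Ga, (∀ y ∈ l, y ∈ S ∨ y⁻¹ ∈ S) ∧ l.prod = x := by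
  induction hx using Subgroup.closure_induction with
  | mem x hx => exact ⟨[x], by simpa using Or.inl (Finset.mem_coe.1 hx), by simp⟩
  | one => exact ⟨[], by simp, by simp⟩
  | mul x y _ _ hx hy =>
    obtain ⟨l, h1, h2⟩ := hx
    obtain ⟨l', h1', h2'⟩ := hy
    refine ⟨l ++ l', fun z hz => ?_, by rw [List.prod_append, h2, h2']⟩
    rcases List.mem_append.1 hz with h | h
    · exact h1 z h
    · exact h1' z h
  | inv x _ hx =>
    obtain ⟨l, h1, h2⟩ := hx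
    refine ⟨(l.map (·⁻¹)).reverse, fun z hz => ?_, ?_⟩
    · simp only [List.mem_reverse, List.mem_map] at hz
      obtain ⟨b, hb, rfl⟩ := hz
      rw [inv_inv]
      exact (h1 b hb).symm
    · rw [← List.prod_inv_reverse, h2]

theorem L_le (hG : S_GEN) (x : Ga) :
    L x ≤ 6 * sInf {n : ℕ | ∃ l : List Ga, l.length = n ∧
      (∀ y ∈ l, y ∈ gens ∨ y⁻¹ ∈ gens) ∧ l.prod = x} := by
  have hne : {n : ℕ | ∃ l : List Ga, l.length = n ∧
      (∀ y ∈ l, y ∈ gens ∨ y⁻¹ ∈ gens) ∧ l.prod = x}.Nonempty := by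
    have hx : x ∈ Subgroup.closure (gens : Set Ga) := by
      rw [hG.1]
      exact Subgroup.mem_top x
    obtain ⟨l, h1, h2⟩ := exists_list gens x hx
    exact ⟨l.length, l, rfl, h1, h2⟩
  obtain ⟨l, h1, h2, h3⟩ := Nat.sInf_mem hne
  rw [← h1]
  conv_lhs => rw [← h3]
  exact hG.2 l h2

theorem t_RD : S_TRI → S_GEN → S_RD := by
  classical
  rintro ⟨d, hd⟩ hG
  refine ⟨gens, hG.1, 4 * 6 ^ (2 * (d + 2)), d + 2, fun f g T => ?_⟩
  obtain ⟨wl, hwl⟩ : ∃ wl : Ga → ℕ, wl = fun x => sInf {n : ℕ | ∃ l : List Ga, l.length = n ∧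
      (∀ y ∈ l, y ∈ gens ∨ y⁻¹ ∈ gens) ∧ l.prod = x} := ⟨_, rfl⟩
  have hL : ∀ x, L x ≤ 6 * wl x := fun x => by
    rw [hwl]
    exact L_le hG x
  have goal : ∑ x ∈ T, (f.sum (fun y a => a * g (y⁻¹ * x))) ^ 2 ≤
      4 * 6 ^ (2 * (d + 2)) * (f.sum (fun x a => a ^ 2 * (1 + (wl x : ℝ)) ^ (2 * (d + 2))))
        * g.sum (fun _ a => a ^ 2) := by
    obtain ⟨f', hf'⟩ : ∃ f' : Ga →₀ ℂ, f' = f.mapRange ((↑) : ℝ → ℂ) Complex.ofReal_zero := ⟨_, rfl⟩
    have hsup : f'.support = f.support := by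
      rw [hf']
      exact Finsupp.support_mapRange_of_injective _ _ Complex.ofReal_injective
    have hval : ∀ y, f' y = (f y : ℂ) := fun y => by rw [hf']; rfl
    obtain ⟨B, hB⟩ := rd_core (fun x => L x + 1) d
      (fun r A B C f g h hA hf hg hC hh => hd r A B C f g h hA hf hg hC hh) f'
      (fun x => (g x : ℂ)) T
    have e1 : ∀ x, ‖cv f' (fun x => (g x : ℂ)) x‖ ^ 2 = (f.sum (fun y a => a * g (y⁻¹ * x))) ^ 2 := by
      intro x
      have : cv f' (fun x => (g x : ℂ)) x = ((f.sum (fun y a => a * g (y⁻¹ * x)) : ℝ) : ℂ) := by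
        unfold cv Finsupp.sum
        rw [hsup]
        push_cast
        exact Finset.sum_congr rfl fun y _ => by rw [hval]
      rw [this, Complex.norm_real, Real.norm_eq_abs, sq_abs]
    have e2 : ∑ y ∈ f'.support, ‖f' y‖ ^ 2 * (((L y + 1 : ℕ) : ℝ) + 1) ^ (2 * (d + 2)) ≤
        6 ^ (2 * (d + 2)) * (f.sum (fun x a => a ^ 2 * (1 + (wl x : ℝ)) ^ (2 * (d + 2)))) := by
      rw [hsup, Finsupp.sum, Finset.mul_sum]
      refine Finset.sum_le_sum fun y _ => ?_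
      rw [hval, Complex.norm_real, Real.norm_eq_abs, sq_abs]
      have h1 : (L y : ℝ) ≤ 6 * (wl y : ℝ) := by exact_mod_cast hL y
      have h2 : ((L y + 1 : ℕ) : ℝ) + 1 ≤ 6 * (1 + (wl y : ℝ)) := by
        push_cast
        linarith
      calc f y ^ 2 * (((L y + 1 : ℕ) : ℝ) + 1) ^ (2 * (d + 2))
          ≤ f y ^ 2 * (6 * (1 + (wl y : ℝ))) ^ (2 * (d + 2)) := by gcongr
        _ = _ := by rw [mul_pow]; ring
    have e3 : ∑ y ∈ B, ‖(g y : ℂ)‖ ^ 2 ≤ g.sum (fun _ a => a ^ 2) := by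
      have h1 : ∀ y, ‖(g y : ℂ)‖ ^ 2 = g y ^ 2 := fun y => by
        rw [Complex.norm_real, Real.norm_eq_abs, sq_abs]
      simp_rw [h1]
      rw [Finsupp.sum]
      calc ∑ y ∈ B, g y ^ 2 ≤ ∑ y ∈ B ∪ g.support, g y ^ 2 :=
            Finset.sum_le_sum_of_subset_of_nonneg Finset.subset_union_left
              fun _ _ _ => sq_nonneg _
        _ = ∑ y ∈ g.support, g y ^ 2 := by
            symm
            refine Finset.sum_subset Finset.subset_union_right fun y _ hy => ?_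
            rw [Finsupp.notMem_support_iff] at hy
            rw [hy]
            norm_num
    simp_rw [e1] at hB
    have n0 : 0 ≤ ∑ x ∈ T, (f.sum (fun y a => a * g (y⁻¹ * x))) ^ 2 :=
      Finset.sum_nonneg fun _ _ => sq_nonneg _
    have n1 : 0 ≤ ∑ y ∈ f'.support, ‖f' y‖ ^ 2 * (((L y + 1 : ℕ) : ℝ) + 1) ^ (2 * (d + 2)) :=
      Finset.sum_nonneg fun _ _ => by positivity
    have n2 : 0 ≤ ∑ y ∈ B, ‖(g y : ℂ)‖ ^ 2 := Finset.sum_nonneg fun _ _ => by positivity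
    have h3 := pow_le_pow_left₀ (Real.sqrt_nonneg _) hB 2
    rw [Real.sq_sqrt n0, mul_pow, mul_pow, Real.sq_sqrt n1, Real.sq_sqrt n2] at h3
    refine h3.trans ?_
    have h4 : (2 : ℝ) ^ 2 * ∑ y ∈ f'.support, ‖f' y‖ ^ 2 *
        (((L y + 1 : ℕ) : ℝ) + 1) ^ (2 * (d + 2)) ≤
        4 * 6 ^ (2 * (d + 2)) * (f.sum (fun x a => a ^ 2 * (1 + (wl x : ℝ)) ^ (2 * (d + 2)))) := by
      rw [mul_assoc]
      have : (2 : ℝ) ^ 2 = 4 := by norm_num
      rw [this]
      exact mul_le_mul_of_nonneg_left e2 (by norm_num)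
    exact mul_le_mul h4 e3 n2 (le_trans (mul_nonneg (by norm_num) n1) h4)
  rw [hwl] at goal
  exact goal

end Pool.Agent.N250.FG.Rd
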